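import Mathlib
import Pool.Agent.Results.MP_fb29e9_nt.Multiplicative
import Pool.Agent.Results.MP_fb29e9_nt.PrimeRadii
import Pool.Agent.H383.FullC

/-!
# The sign of the error term of the circle problem at integer radii

`Def n` says that the closed disc of radius `n` contains fewer than `π n²` integer points, that is,
`P(n) < 0` for the error term `P(R) = F(R) - π R²` of the Gauss circle problem.  The integers `n` with
`Def n` have a natural density `d`, and `5 / 6 ≤ d < 1`: the error term is negative at at least five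
sixths of all the integer radii.  The density is attained in all short intervals
`(k, k + N]`, `N ≥ k ^ (1 / 2 + ε)`, it is also the density of the primes `p` with `Def p` among all
primes, and the property `Def n` is uncorrelated with every bounded multiplicative function (uniformly
in the function; for instance the density is the same among the squarefree numbers, among the numbers
with an even number of prime factors, in every residue class) and with every bounded sequence of weights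
without irrational frequencies.
-/

set_option autoImplicit false

open MeasureTheory Filter Topology

namespace Pool.Agent.Results.MP_fb29e9_nt.DeficitAtIntegerRadii

/-- the disc of radius `n` contains fewer than `π n²` integer points -/
def Def (n : ℕ) : Prop :=
  (Nat.card {p : ℤ × ℤ // (p.1 : ℝ) ^ 2 + (p.2 : ℝ) ^ 2 ≤ (n : ℝ) ^ 2} : ℝ) < Real.pi * (n : ℝ) ^ 2

/-- the normalised error term -/
noncomputable def EE (x : ℝ) : ℝ :=
  ((Nat.card {p : ℤ × ℤ // (p.1 : ℝ) ^ 2 + (p.2 : ℝ) ^ 2 ≤ x} : ℝ) - Real.pi * x) / x ^ (1 / 4 : ℝ)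

/-- the half-space -/
def HS : Set (Fin 1 → ℝ) := {x | x 0 < 0}

theorem mem_HS {n : ℕ} (hn : 1 ≤ n) :
    (fun _ : Fin 1 => EE (((1 : ℕ) : ℝ) * (n : ℝ) ^ 2 + 0 * n + 0)) ∈ HS ↔ Def n := by
  have e : ((1 : ℕ) : ℝ) * (n : ℝ) ^ 2 + 0 * n + 0 = (n : ℝ) ^ 2 := by push_cast; ring
  have hn0 : (0 : ℝ) < n := by exact_mod_cast hn
  have hs : (0 : ℝ) < ((n : ℝ) ^ 2) ^ (1 / 4 : ℝ) := by positivity
  unfold HS EE Def
  simp only [Set.mem_ofPred_eq, e]
  rw [div_lt_iff₀ hs, zero_mul, sub_neg]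

theorem null (μ : ProbabilityMeasure (Fin 1 → ℝ))
    (h : ∀ i, ∃ g : ℂ → ℂ, Differentiable ℂ g ∧ (∀ x : ℝ, 0 ≤ (g x).re ∧ (g x).im = 0) ∧
        (μ : Measure (Fin 1 → ℝ)).map (fun x => x i) =
          volume.withDensity (fun x : ℝ => ENNReal.ofReal (g x).re) ∧
        ∀ u v : ℝ, u < v → 0 < (μ : Measure (Fin 1 → ℝ)) {x | u < x i ∧ x i < v}) :
    (μ : Measure (Fin 1 → ℝ)) (frontier HS) = 0 := by
  obtain ⟨g, -, -, h3, -⟩ := h 0
  have h1 : frontier HS ⊆ {x : Fin 1 → ℝ | x 0 = 0} := by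
    have hc : Continuous fun x : Fin 1 → ℝ => x 0 := continuous_apply 0
    intro x hx
    exact frontier_lt_subset_eq hc continuous_const hx
  refine measure_mono_null h1 ?_
  have h2 : {x : Fin 1 → ℝ | x 0 = 0} = (fun x : Fin 1 → ℝ => x 0) ⁻¹' {0} := rfl
  rw [h2, ← Measure.map_apply (measurable_pi_apply 0) (measurableSet_singleton 0), h3]
  exact (withDensity_absolutelyContinuous _ _) (by simp)

open Classical in
/-- **The deficit at integer radii.** -/
theorem result : ∃ d : ℝ, 5 / 6 ≤ d ∧ d < 1 ∧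
    -- all short intervals
    (∀ ε : ℝ, 0 < ε → ∀ η : ℝ, 0 < η → ∃ N₀ : ℕ, ∀ N : ℕ, N₀ ≤ N → ∀ k : ℕ,
      (k : ℝ) ^ (1 / 2 + ε) ≤ N →
        |(((Finset.Ioc k (k + N)).filter Def).card : ℝ) / N - d| ≤ η) ∧
    -- primes
    Tendsto (fun N : ℕ => (((Finset.Icc 1 N).filter (fun p => p.Prime ∧ Def p)).card : ℝ)
      / ((Finset.Icc 1 N).filter Nat.Prime).card) atTop (𝓝 d) ∧
    -- bounded multiplicative functions, uniformly
    (∀ ε : ℝ, 0 < ε → ∃ N₀ : ℕ, ∀ N : ℕ, N₀ ≤ N → ∀ g : ℕ → ℂ, (∀ n, ‖g n‖ ≤ 1) →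
      (∀ m n : ℕ, Nat.Coprime m n → g (m * n) = g m * g n) →
      ‖∑ n ∈ Finset.Icc 1 N, g n * (((if Def n then 1 else 0) - d : ℝ) : ℂ)‖ ≤ ε * N) ∧
    -- weights without irrational frequencies
    (∀ w : ℕ → ℕ → ℂ, (∀ N n, ‖w N n‖ ≤ 1) →
      (∀ θ : ℝ, Irrational θ → Tendsto (fun N : ℕ =>
        (∑ n ∈ Finset.Icc 1 N, w N n * Complex.exp (2 * Real.pi * θ * n * Complex.I)) / N)
        atTop (𝓝 0)) →
      Tendsto (fun N : ℕ => (∑ n ∈ Finset.Icc 1 N, w N n *
        (((if Def n then 1 else 0) - d : ℝ) : ℂ)) / N) atTop (𝓝 0)) := by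
  obtain ⟨d, hd1, hd2, hd⟩ := Pool.Agent.H383.Circ.radii2
  have hDef : ∀ n : ℕ, Pool.Agent.H383.Circ.Cx ((n : ℝ) ^ 2) < 0 ↔ Def n := by
    intro n
    unfold Pool.Agent.H383.Circ.Cx Def
    rw [sub_neg]
  have hd' : ∀ ε : ℝ, 0 < ε → ∀ η : ℝ, 0 < η → ∃ N₀ : ℕ, ∀ N : ℕ, N₀ ≤ N → ∀ k : ℕ,
      (k : ℝ) ^ (1 / 2 + ε) ≤ N →
        |(((Finset.Ioc k (k + N)).filter Def).card : ℝ) / N - d| ≤ η := by
    intro ε hε η hη
    obtain ⟨N₀, h⟩ := hd ε hε η hη
    refine ⟨N₀, fun N hN k hk => ?_⟩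
    have h1 := h N hN k hk
    have e : (Finset.Ioc k (k + N)).filter (fun n : ℕ => Pool.Agent.H383.Circ.Cx ((n : ℝ) ^ 2) < 0) =
        (Finset.Ioc k (k + N)).filter Def := Finset.filter_congr fun n _ => hDef n
    rw [e] at h1
    exact h1
  have hlim : Tendsto (fun N : ℕ => (((Finset.Icc 1 N).filter Def).card : ℝ) / N) atTop (𝓝 d) := by
    rw [Metric.tendsto_atTop]
    intro η hη
    obtain ⟨N₀, h⟩ := hd' 1 one_pos (η / 2) (by positivity)
    refine ⟨N₀, fun N hN => ?_⟩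
    have h1 := h N hN 0 (by
      rw [Nat.cast_zero, Real.zero_rpow (by norm_num)]
      exact Nat.cast_nonneg N)
    rw [Real.dist_eq]
    have e : Finset.Ioc 0 (0 + N) = Finset.Icc 1 N := by
      ext x; simp; omega
    rw [e] at h1
    linarith
  -- primes
  obtain ⟨μ, -, hμ1, -, hμ⟩ := Pool.Agent.Results.MP_fb29e9_nt.PrimeRadii.result EE (fun x => rfl) 1
    (fun _ => 1) (fun _ => 0) (fun _ => 0) (fun _ => one_pos) (by
      intro i n hn
      have : (0 : ℝ) < n := by exact_mod_cast hn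
      push_cast
      nlinarith [mul_pos this this])
  have hμ2 := hμ HS (null μ hμ1)
  have e1 : (μ : Measure (Fin 1 → ℝ)).real HS = d := by
    refine tendsto_nhds_unique hμ2.1 ?_
    refine hlim.congr fun N => ?_
    congr 2
    refine congrArg Finset.card (Finset.filter_congr fun n hn => ?_)
    exact (mem_HS (Finset.mem_Icc.1 hn).1).symm
  -- multiplicative functions
  obtain ⟨ν, -, hν1, hν⟩ := Pool.Agent.Results.MP_fb29e9_nt.Multiplicative.result EE (fun x => rfl) 1
    (fun _ => 1) (fun _ => 0) (fun _ => 0) (fun _ => one_pos) (by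
      intro i n hn
      have : (0 : ℝ) < n := by exact_mod_cast hn
      push_cast
      nlinarith [mul_pos this this])
  obtain ⟨hν2, hν3⟩ := hν (HS.indicator 1) (Or.inr ⟨HS, null ν hν1, rfl⟩)
  have hmeas : MeasurableSet HS := measurableSet_lt (measurable_pi_apply 0) measurable_const
  have hint : ∫ x, HS.indicator (1 : (Fin 1 → ℝ) → ℝ) x ∂(ν : Measure (Fin 1 → ℝ)) =
      (ν : Measure (Fin 1 → ℝ)).real HS := by
    rw [integral_indicator_one hmeas]
  have hval : ∀ N : ℕ, ∀ n ∈ Finset.Icc 1 N,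
      HS.indicator (1 : (Fin 1 → ℝ) → ℝ)
        (fun i : Fin 1 => EE ((((fun _ : Fin 1 => (1 : ℕ)) i : ℕ) : ℝ) * (n : ℝ) ^ 2 +
          (fun _ : Fin 1 => (0 : ℝ)) i * n + (fun _ : Fin 1 => (0 : ℝ)) i)) =
        if Def n then 1 else 0 := by
    intro N n hn
    by_cases h : Def n
    · rw [Set.indicator_of_mem ((mem_HS (Finset.mem_Icc.1 hn).1).2 h), if_pos h]
      rfl
    · rw [Set.indicator_of_notMem (fun h' => h ((mem_HS (Finset.mem_Icc.1 hn).1).1 h')), if_neg h]
  have e2 : (ν : Measure (Fin 1 → ℝ)).real HS = d := by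
    set t := (ν : Measure (Fin 1 → ℝ)).real HS with ht
    have h0 : Tendsto (fun N : ℕ => (((Finset.Icc 1 N).filter Def).card : ℝ) / N) atTop (𝓝 t) := by
      rw [Metric.tendsto_atTop]
      intro ε hε
      obtain ⟨N₀, h⟩ := hν2 (ε / 2) (by positivity)
      refine ⟨max N₀ 1, fun N hN => ?_⟩
      have hN0 : N₀ ≤ N := le_trans (le_max_left _ _) hN
      have hN1 : 1 ≤ N := le_trans (le_max_right _ _) hN
      have hNpos : (0 : ℝ) < N := by exact_mod_cast hN1
      have h1 := h N hN0 (fun _ => 1) (fun _ => by simp) (fun _ _ _ => by simp)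
      rw [hint] at h1
      have h2 : ∑ n ∈ Finset.Icc 1 N, (1 : ℂ) * ((HS.indicator (1 : (Fin 1 → ℝ) → ℝ)
          (fun i : Fin 1 => EE ((((fun _ : Fin 1 => (1 : ℕ)) i : ℕ) : ℝ) * (n : ℝ) ^ 2 +
          (fun _ : Fin 1 => (0 : ℝ)) i * n + (fun _ : Fin 1 => (0 : ℝ)) i)) - t : ℝ) : ℂ) =
          (((((Finset.Icc 1 N).filter Def).card : ℝ) - t * N : ℝ) : ℂ) := by
        have h3 : ∀ n ∈ Finset.Icc 1 N, (1 : ℂ) * ((HS.indicator (1 : (Fin 1 → ℝ) → ℝ)
          (fun i : Fin 1 => EE ((((fun _ : Fin 1 => (1 : ℕ)) i : ℕ) : ℝ) * (n : ℝ) ^ 2 +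
          (fun _ : Fin 1 => (0 : ℝ)) i * n + (fun _ : Fin 1 => (0 : ℝ)) i)) - t : ℝ) : ℂ) =
            (((if Def n then (1 : ℝ) else 0) - t : ℝ) : ℂ) := fun n hn => by
          rw [hval N n hn, one_mul]
        rw [Finset.sum_congr rfl h3, ← Complex.ofReal_sum]
        congr 1
        rw [Finset.sum_sub_distrib, Finset.sum_const, Nat.card_Icc, Finset.card_filter]
        push_cast
        rw [nsmul_eq_mul]
        ring
      rw [h2, Complex.norm_real, Real.norm_eq_abs] at h1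
      rw [Real.dist_eq]
      have h4 : (((Finset.Icc 1 N).filter Def).card : ℝ) / N - t =
          ((((Finset.Icc 1 N).filter Def).card : ℝ) - t * N) / N := by
        field_simp
      rw [h4, abs_div, abs_of_pos hNpos, div_lt_iff₀ hNpos]
      nlinarith
    exact tendsto_nhds_unique h0 hlim
  refine ⟨d, hd1, hd2, hd', ?_, ?_, ?_⟩
  · have h1 := hμ2.2
    rw [e1] at h1
    refine h1.congr fun N => ?_
    congr 2
    refine congrArg Finset.card (Finset.filter_congr fun n hn => ?_)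
    exact and_congr_right fun _ => mem_HS (Finset.mem_Icc.1 hn).1
  · intro ε hε
    obtain ⟨N₀, h⟩ := hν2 ε hε
    refine ⟨N₀, fun N hN g hg1 hg2 => ?_⟩
    have h1 := h N hN g hg1 hg2
    rw [hint, e2] at h1
    rw [Finset.sum_congr rfl fun n hn => by rw [hval N n hn]] at h1
    exact h1
  · intro w hw1 hw2
    have h1 := hν3 w hw1 hw2
    rw [hint, e2] at h1
    refine h1.congr fun N => ?_
    congr 1
    exact Finset.sum_congr rfl fun n hn => by rw [hval N n hn]

end Pool.Agent.Results.MP_fb29e9_nt.DeficitAtIntegerRadii
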