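import Pool.Agent.U180.NG.Asm2
import Pool.Agent.U750.NG.VDC
import Pool.Agent.U312.NG.BLK
import Pool.Agent.U559.NG.HALF
import Pool.Agent.U594.NG.EXP
import Pool.Agent.U333.NG.B2
import Pool.Agent.U111.NG.EM
import Pool.Agent.U397.NG.ROWF
import Pool.Agent.U27.NG.PHI
import Pool.Agent.U511.NG.MEANY
import Pool.Agent.U660.NG.ANN
import Pool.Agent.U354.NG.PZ
import Pool.Agent.U981.NG.MEANP
import Pool.Agent.U668.NG.CNT
import Pool.Agent.U580.NG.B2I
import Pool.Agent.U873.NG.PSI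
import Pool.Agent.U263.NG.LFL
import Pool.Agent.U480.NG.LDC
import Pool.Agent.U7.NG.LINT
import Pool.Agent.U402.NG.LUNE
import Pool.Agent.U451.NG.VAS
import Pool.Agent.U72.NG.MGF
import Pool.Agent.U129.NG.SMGF
import Pool.Agent.U600.NG.TU
import Pool.Agent.U571.NG.TL
import Pool.Agent.U27.NG.BCL2
import Pool.Agent.U810.NG.FLUC2
import Pool.Agent.U981.NG.INC
import Pool.Agent.U88.NG.UPP2
import Pool.Agent.U669.NG.LOWP2

/-!
# The Gauss circle problem for slightly displaced lattice points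

Project NG (lead: seat helper180). Every lattice point is displaced by an independent random vector
`(U, 0) + Y`, where `U` is uniform in `[0, δ]`, `δ > 0` is arbitrarily small, and `Y` is any bounded
random vector. The mean error of the circle problem is then `O(√R)`, and almost surely the error
has the exact order `√(R log R)`, with the exact constant in both directions.

Definitions (file `Pool.Agent.U180.NG.Stm`, `Pool.Agent.U180.NG.Stm2`): `noiseLaw δ μ` is the law of
`(U, 0) + Y`, `count ξ R` is the number of displaced lattice points in the closed disc of radius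
`R`, `IsNoise P δ ρ μ ξ` says that the displacements `ξ z` are independent with the law
`noiseLaw δ μ` and that `0 < δ ≤ 1` and `μ` is a probability measure on `[-ρ, ρ]²`, and `spread ν`
is the mean distance of two independent points with the law `ν`.
-/

set_option autoImplicit false

open MeasureTheory ProbabilityTheory Filter Topology

namespace Pool.Agent.Results.MP_fb29e9_nt.DisplacedLatticePoints

open Pool.Agent Pool.Agent.U180.NG

theorem result (Ω : Type) [MeasurableSpace Ω] (P : Measure Ω) (hP : IsProbabilityMeasure P)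
    (δ ρ : ℝ) (μ : Measure (ℝ × ℝ)) (ξ : ℤ × ℤ → Ω → ℝ × ℝ) (h : IsNoise P δ ρ μ ξ) :
    (∃ C : ℝ, ∀ R : ℝ, 1 ≤ R →
      |∫ ω, (count (fun z => ξ z ω) R : ℝ) ∂P - Real.pi * R ^ 2| ≤ C * Real.sqrt R) ∧
      0 < spread (noiseLaw δ μ) ∧
      ∀ᵐ ω ∂P, ∀ ε : ℝ, 0 < ε →
        (∀ᶠ R : ℝ in atTop, |(count (fun z => ξ z ω) R : ℝ) - Real.pi * R ^ 2| ≤
          (2 * Real.sqrt (spread (noiseLaw δ μ)) + ε) * Real.sqrt (R * Real.log R)) ∧
        (∃ᶠ n : ℕ in atTop, (2 * Real.sqrt (spread (noiseLaw δ μ)) - ε) *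
          Real.sqrt (n * Real.log n) ≤
            (count (fun z => ξ z ω) n : ℝ) - Real.pi * (n : ℝ) ^ 2) ∧
        ∃ᶠ n : ℕ in atTop, (count (fun z => ξ z ω) n : ℝ) - Real.pi * (n : ℝ) ^ 2 ≤
          -((2 * Real.sqrt (spread (noiseLaw δ μ)) - ε) * Real.sqrt (n * Real.log n)) :=
  final2 U750.NG.t_VDC U312.NG.t_BLK U559.NG.t_HALF U594.NG.t_EXP U333.NG.t_B2 U111.NG.t_EM
    U397.NG.t_ROWF U27.NG.t_PHI U511.NG.t_MEANY U660.NG.t_ANN U354.NG.t_PZ U981.NG.t_MEANP
    U668.NG.t_CNT U580.NG.t_B2I U873.NG.t_PSI U263.NG.t_LFL U480.NG.t_LDC U7.NG.t_LINT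
    U402.NG.t_LUNE U451.NG.t_VAS U72.NG.t_MGF U129.NG.t_SMGF U600.NG.t_TU U571.NG.t_TL
    U27.NG.t_BCL2 U810.NG.t_FLUC2 U981.NG.t_INC U88.NG.t_UPP2 U669.NG.t_LOWP2
    Ω P hP δ ρ μ ξ h

end Pool.Agent.Results.MP_fb29e9_nt.DisplacedLatticePoints
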