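import Pool.Agent.U581.LB.FinJ

/-!
# The error term of the circle problem is locally a Brownian motion, independent of its size

Let `P(R) = #{p ∈ ℤ² : |p| ≤ R} - π R²`. Above a random radius `R ∈ [T, 2 T]` we look at the error term on the short interval
`[R, R + ρ]`, that is at the process `u ↦ (P(R + ρ u) - P(R)) / (4 √(R ρ log (1 / ρ)))`, `0 ≤ u ≤ 1`: its value at `u` is
the normalised deviation of the number of lattice points in the thin annulus with the radii `R` and `R + ρ u` from the area. The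
theorem: as `T → ∞` and `ρ → 0` with `ρ ≥ T ^ (-o(1))` this process converges in distribution to a Brownian motion, in the space of
the continuous functions on `[0, 1]` (the process is read off at `M + 1` equidistant points and interpolated linearly,
`M → ∞`, `M ≤ T ^ o(1)`), and it becomes independent of the size `P(R) / √R` of the error term (whose limit law is the one of
Heath-Brown, not a Gaussian one). Independence is expressed by
`E g(P(R) / √R) F(path) - E g(P(R) / √R) · E F(B) → 0` for the bounded Lipschitz functions `g` on the line and the bounded continuous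
functions `F` of the path; `g = 1` is the invariance principle itself. For one annulus, that is for `g = 1` and the `F` depending on
the value at `u = 1` only, this is the central limit theorem of Hughes and Rudnick (2004; Bleher and Lebowitz 1994 for `ρ → 0`
after `T → ∞`). The theorem holds

* (first part) for `R = T ξ`, `ξ` distributed according to any probability measure on `[c₁, c₂]`, `c₁ > 0`, which may depend on
  `T`, whose Fourier transform is at most `K |t| ^ (-s)`, `s > 1 / 3`, for `T ^ (1 / 10) ≤ |t| ≤ T ^ 2` (for instance many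
  singular measures), uniformly in the measure, in `ρ` and in `M`;
* (second part) for `R` uniformly distributed in the short windows `[T, T + H]`, `T ^ (14 / 15 + κ) ≤ H ≤ T`.
-/

set_option autoImplicit false

namespace Pool.Agent.Results.MP_fb29e9_nt.LocallyBrownian

open Real MeasureTheory ProbabilityTheory
open scoped BoundedContinuousFunction NNReal

/-- The error term `P(R) = #{p ∈ ℤ² : |p| ≤ R} - π R²` of the circle problem (for `R ≥ 0`). -/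
noncomputable def P (R : ℝ) : ℝ :=
  (Nat.card {p : ℤ × ℤ // (p.1 : ℝ) ^ 2 + (p.2 : ℝ) ^ 2 ≤ R ^ 2} : ℝ) - π * R ^ 2

/-- The path of the error term above the radius `R`: the continuous function on `[0, 1]` which is linear between the points `k / M`,
`k = 0, …, M`, and has there the values `(P(R + ρ k / M) - P(R)) / (4 √(R ρ log (1 / ρ)))`. -/
noncomputable def path (ρ : ℝ) (M : ℕ) (R : ℝ) : C(unitInterval, ℝ) where
  toFun t := (∑ k ∈ Finset.range M, (P (R + ρ * ((k + 1) / M)) - P (R + ρ * (k / M))) *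
    max 0 (min 1 (M * (t : ℝ) - k))) / (4 * √(R * (ρ * log (1 / ρ))))
  continuous_toFun := by fun_prop

/-- The path of `B` on `[0, 1]` as a continuous function (and `0` if it is not continuous). -/
noncomputable def unitPath {Ω : Type} (B : ℝ≥0 → Ω → ℝ) (ω : Ω) : C(unitInterval, ℝ) :=
  ContinuousMap.mkD (fun t : unitInterval => B ⟨(t : ℝ), t.2.1⟩ ω) 0

theorem path_eq {ρ : ℝ} (h0 : 0 < ρ) (h1 : ρ ≤ 1) (M : ℕ) (R : ℝ) :
    path ρ M R = Pool.Agent.U581.LB.pathR ρ M R := by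
  have hl : 0 ≤ ρ * log (1 / ρ) := mul_nonneg h0.le (Real.log_nonneg (by
    rw [le_div_iff₀ h0, one_mul]
    exact h1))
  ext t
  unfold Pool.Agent.U581.LB.pathR
  rw [Pool.Agent.U581.BM.polygon_apply]
  show (∑ k ∈ Finset.range M, (P (R + ρ * ((k + 1) / M)) - P (R + ρ * (k / M))) *
    max 0 (min 1 (M * (t : ℝ) - k))) / (4 * √(R * (ρ * log (1 / ρ)))) = _
  have e0 : Pool.Agent.U581.LB.Pc (R + ρ * (((0 : ℕ) : ℝ) / M)) - Pool.Agent.U581.LB.Pc R = 0 := by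
    simp
  have e1 : 4 * √(R * (ρ * log (1 / ρ))) = √R * Pool.Agent.U581.LB.sg ρ := by
    unfold Pool.Agent.U581.LB.sg
    rw [Real.sqrt_mul' _ hl]
    ring
  rw [e0, e1, zero_div, zero_add, Finset.sum_div]
  refine Finset.sum_congr rfl fun k _ => ?_
  rw [← sub_div, div_mul_eq_mul_div]
  congr 2
  have e2 : ((k + 1 : ℕ) : ℝ) = (k : ℝ) + 1 := by push_cast; ring
  rw [e2]
  unfold P Pool.Agent.U581.LB.Pc
  ring

/-- **The error term of the circle problem is locally a Brownian motion, independent of its size.** -/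
theorem result {Ω : Type} [MeasurableSpace Ω] (Q : Measure Ω) (B : ℝ≥0 → Ω → ℝ)
    (hB : IsBrownianReal B Q) (F : C(unitInterval, ℝ) →ᵇ ℝ) (g : ℝ → ℝ) (l : ℝ≥0) (D : ℝ)
    (hg : LipschitzWith l g) (hD : ∀ u, |g u| ≤ D) (ε : ℝ) (hε : 0 < ε) :
    (∀ c₁ c₂ K s : ℝ, 0 < c₁ → 1 / 3 < s → ∃ δ : ℝ, 0 < δ ∧ ∀ (T ρ : ℝ) (M : ℕ), 1 / δ ≤ T →
      T ^ (-δ) ≤ ρ → ρ ≤ δ → 1 / δ ≤ M → (M : ℝ) ≤ T ^ δ →
      ∀ μ : Measure ℝ, IsProbabilityMeasure μ → (∀ᵐ x ∂μ, c₁ ≤ x ∧ x ≤ c₂) →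
      (∀ t : ℝ, T ^ (1 / 10 : ℝ) ≤ |t| → |t| ≤ T ^ 2 →
        ‖∫ x, Complex.exp (((t * x : ℝ) : ℂ) * Complex.I) ∂μ‖ ≤ K * |t| ^ (-s)) →
      |(∫ x, g (P (T * x) / √(T * x)) * F (path ρ M (T * x)) ∂μ) -
        (∫ x, g (P (T * x) / √(T * x)) ∂μ) * ∫ ω, F (unitPath B ω) ∂Q| ≤ ε) ∧
    (∀ κ : ℝ, 0 < κ → ∃ δ : ℝ, 0 < δ ∧ ∀ (T H ρ : ℝ) (M : ℕ), 1 / δ ≤ T →
      T ^ (14 / 15 + κ) ≤ H → H ≤ T → T ^ (-δ) ≤ ρ → ρ ≤ δ → 1 / δ ≤ M → (M : ℝ) ≤ T ^ δ →
      |(1 / H * ∫ R in T..(T + H), g (P R / √R) * F (path ρ M R)) -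
        (1 / H * ∫ R in T..(T + H), g (P R / √R)) * ∫ ω, F (unitPath B ω) ∂Q| ≤ ε) := by
  have key : ∀ (ρ₀ δ₀ T₀ : ℝ) (M₀ : ℕ), 0 < ρ₀ → 0 < δ₀ → ∃ δ : ℝ, 0 < δ ∧ ∀ (T ρ : ℝ) (M : ℕ),
      1 / δ ≤ T → T ^ (-δ) ≤ ρ → ρ ≤ δ → 1 / δ ≤ M → (M : ℝ) ≤ T ^ δ →
      T₀ ≤ T ∧ T ^ (-δ₀) ≤ ρ ∧ ρ ≤ ρ₀ ∧ M₀ ≤ M ∧ (M : ℝ) ≤ T ^ δ₀ ∧ 0 < ρ ∧ ρ ≤ 1 ∧ 1 ≤ T := by
    intro ρ₀ δ₀ T₀ M₀ hρ₀ hδ₀
    refine ⟨min (min δ₀ ρ₀) (min (1 / (|T₀| + 1)) (1 / (M₀ + 1))), by positivity, ?_⟩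
    intro T ρ M hT hρ1 hρ2 hM1 hM2
    obtain ⟨δ, hδ⟩ : ∃ δ : ℝ, δ = min (min δ₀ ρ₀) (min (1 / (|T₀| + 1)) (1 / (M₀ + 1))) := ⟨_, rfl⟩
    rw [← hδ] at hT hρ1 hρ2 hM1 hM2
    have d0 : 0 < δ := by rw [hδ]; positivity
    have d1 : δ ≤ δ₀ := by rw [hδ]; exact (min_le_left _ _).trans (min_le_left _ _)
    have d2 : δ ≤ ρ₀ := by rw [hδ]; exact (min_le_left _ _).trans (min_le_right _ _)
    have d3 : δ ≤ 1 / (|T₀| + 1) := by rw [hδ]; exact (min_le_right _ _).trans (min_le_left _ _)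
    have d4 : δ ≤ 1 / (M₀ + 1) := by rw [hδ]; exact (min_le_right _ _).trans (min_le_right _ _)
    have t3 : |T₀| + 1 ≤ 1 / δ := by
      rw [le_div_iff₀ (by positivity)] at d3 ⊢
      linarith
    have t4 : (M₀ : ℝ) + 1 ≤ 1 / δ := by
      rw [le_div_iff₀ (by positivity)] at d4 ⊢
      linarith
    have hT1 : 1 ≤ T := by linarith [abs_nonneg T₀]
    have hd1 : δ ≤ 1 := d3.trans (by
      rw [div_le_one (by positivity)]
      linarith [abs_nonneg T₀])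
    refine ⟨by linarith [le_abs_self T₀], ?_, by linarith, ?_, ?_, ?_, by linarith, hT1⟩
    · exact (Real.rpow_le_rpow_of_exponent_le hT1 (by linarith)).trans hρ1
    · have : (M₀ : ℝ) ≤ M := by linarith
      exact_mod_cast this
    · exact hM2.trans (Real.rpow_le_rpow_of_exponent_le hT1 d1)
    · exact lt_of_lt_of_le (Real.rpow_pos_of_pos (by linarith) _) hρ1
  refine ⟨fun c₁ c₂ K s hc hs => ?_, fun κ hκ => ?_⟩
  · obtain ⟨ρ₀, δ₀, T₀, M₀, hρ₀, hδ₀, H⟩ :=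
      Pool.Agent.U581.LB.f_JMAIN c₁ c₂ K s hc hs Q B hB F g l D hg hD ε hε
    obtain ⟨δ, hδ, hk⟩ := key ρ₀ δ₀ T₀ M₀ hρ₀ hδ₀
    refine ⟨δ, hδ, fun T ρ M h1 h2 h3 h4 h5 μ hμ hs1 hs2 => ?_⟩
    obtain ⟨k1, k2, k3, k4, k5, k6, k7, -⟩ := hk T ρ M h1 h2 h3 h4 h5
    simp_rw [path_eq k6 k7]
    exact H T ρ M k1 k2 k3 k4 k5 μ ⟨hμ, hs1, hs2⟩
  · obtain ⟨ρ₀, δ₀, T₀, M₀, hρ₀, hδ₀, H⟩ :=
      Pool.Agent.U581.LB.f_JMAIN 1 2 2 (1 / 3 + 10 * min κ (1 / 15)) one_pos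
        (by have := lt_min hκ (by norm_num : (0 : ℝ) < 1 / 15); linarith) Q B hB F g l D hg hD ε hε
    obtain ⟨δ, hδ, hk⟩ := key ρ₀ δ₀ T₀ M₀ hρ₀ hδ₀
    refine ⟨δ, hδ, fun T H' ρ M h1 h1' h1'' h2 h3 h4 h5 => ?_⟩
    obtain ⟨k1, k2, k3, k4, k5, k6, k7, k8⟩ := hk T ρ M h1 h2 h3 h4 h5
    have hT0 : 0 < T := by linarith
    have hH0 : 0 < H' := lt_of_lt_of_le (by positivity) h1'
    have hκ' : 0 < min κ (1 / 15 : ℝ) := lt_min hκ (by norm_num)
    have hadm := Pool.Agent.U581.LB.win_adm hκ' (min_le_right _ _) k8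
      ((Real.rpow_le_rpow_of_exponent_le k8 (by linarith [min_le_left κ (1 / 15 : ℝ)])).trans h1') h1''
    have h6 := H T ρ M k1 k2 k3 k4 k5 _ hadm
    rw [Pool.Agent.U581.LB.int_win hT0 hH0 (fun R => g (Pool.Agent.U581.LB.Pc R / √R) *
        F (Pool.Agent.U581.LB.pathR ρ M R)),
      Pool.Agent.U581.LB.int_win hT0 hH0 (fun R => g (Pool.Agent.U581.LB.Pc R / √R))] at h6
    simp_rw [path_eq k6 k7]
    exact h6

end Pool.Agent.Results.MP_fb29e9_nt.LocallyBrownian
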