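import Pool.Agent.U160.GC.Main

/-!
# The Gauss circle problem for the integers perturbed by `{P(n)}`

The integers `m` are replaced by `m + sgn(m) ({P(|m|)} - 1/2)`.  For almost every real polynomial `P` of degree at
least `3/ε + 4` the disc of radius `R` contains `π R² + O(R^(1/2+ε))` points of the perturbed lattice; for almost
every sequence of independent uniform perturbations the error is `O(R^(1/2) log R)`.
-/

set_option autoImplicit false

namespace Pool.Agent.Results.MP_fb29e9_nt.PerturbedIntegers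

open MeasureTheory ProbabilityTheory Finset Filter Topology

/-- the fractional part of `x_1 n + x_2 n^2 + ... + x_r n^r` (`x_j` is `x (j-1)`) -/
noncomputable def frac {r : ℕ} (x : Fin r → ℝ) (n : ℕ) : ℝ := Int.fract (∑ j : Fin r, x j * (n : ℝ) ^ (j.val + 1))

/-- the perturbed integer `m + sgn(m) (θ(|m|) - 1/2)`; in particular `0` is not moved -/
noncomputable def pt (θ : ℕ → ℝ) (m : ℤ) : ℝ := (m : ℝ) + (m.sign : ℝ) * (θ m.natAbs - 1 / 2)

/-- the number of the points `(pt(m), pt(n))`, `(m,n) ∈ ℤ²`, in the closed disc of radius `R` -/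
noncomputable def count (θ : ℕ → ℝ) (R : ℝ) : ℕ := {p : ℤ × ℤ | pt θ p.1 ^ 2 + pt θ p.2 ^ 2 ≤ R ^ 2}.ncard

/-- the uniform law on `[0,1]` -/
noncomputable def unif : Measure ℝ := volume.restrict (Set.Icc 0 1)

instance : IsProbabilityMeasure unif := ⟨by simp [unif]⟩

/-- **The Gauss circle problem for perturbed integers.** -/
theorem result :
    (∀ (r : ℕ) (ε : ℝ), 0 < ε → 3 / ε + 4 ≤ r → ∀ᵐ x : Fin r → ℝ, ∃ C : ℝ, ∀ R : ℝ, 1 ≤ R →
      |(count (frac x) R : ℝ) - Real.pi * R ^ 2| ≤ C * R ^ (1 / 2 + ε)) ∧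
    (∀ᵐ θ ∂(Measure.infinitePi fun _ : ℕ => unif), ∃ C : ℝ, ∀ R : ℝ, 1 ≤ R →
      |(count θ R : ℝ) - Real.pi * R ^ 2| ≤ C * (Real.sqrt R * (1 + Real.log R))) := by
  constructor
  · intro r ε hε hr
    -- the number `q` of the moment
    set q : ℕ := r / 4 with hq
    have hq4 : 4 * q ≤ r := by omega
    have hr4 : (r : ℝ) < 4 * q + 4 := by
      have : r < 4 * q + 4 := by omega
      exact_mod_cast this
    have hdiv : 3 / ε < 4 * q := by linarith
    have h3 : 3 < 4 * q * ε := by rwa [div_lt_iff₀ hε] at hdiv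
    have hq1 : 1 ≤ q := by
      by_contra hcon
      have : q = 0 := by omega
      rw [this] at h3
      norm_num at h3
    set ε' : ℝ := min ε 1 with hε'
    have hε'0 : 0 < ε' := by rw [hε']; positivity
    have h3' : 3 < 4 * (q : ℝ) * ε' := by
      rw [hε']
      rcases le_total ε 1 with h | h
      · rw [min_eq_left h]; exact h3
      · rw [min_eq_right h]
        have : (1 : ℝ) ≤ q := by exact_mod_cast hq1
        linarith
    have h1 := Pool.Agent.U160.VP.t_R2 r (fun θ => (∀ n, 1 ≤ n → 0 ≤ θ n ∧ θ n ≤ 1) → ∃ C : ℝ, ∀ R : ℝ, 1 ≤ R →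
      |Pool.Agent.U160.GC.F θ R - Real.pi * R ^ 2| ≤ C * R ^ (1 / 2 + ε')) (by
        have := Pool.Agent.U160.VP.cube_prob r
        refine Pool.Agent.U160.GC.circle_kind q ε' hε'0 (min_le_right _ _) h3' (Fin r → ℝ)
          (volume.restrict (Pool.Agent.U160.VP.cube r)) (fun n x => Pool.Agent.U160.VP.frac x n)
          (fun n => Pool.Agent.U160.VP.frac_meas n) ?_
        have h2 := Pool.Agent.U160.VP.frac_kind r (4 * q) hq4
        rwa [Pool.Agent.U160.VP.law_one] at h2)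
    filter_upwards [h1] with x hx
    obtain ⟨C, hC⟩ := hx (fun n _ => ⟨Int.fract_nonneg _, (Int.fract_lt_one _).le⟩)
    refine ⟨max C 0, fun R hR => ?_⟩
    have h4 := hC R hR
    have h5 : R ^ (1 / 2 + ε') ≤ R ^ (1 / 2 + ε) :=
      Real.rpow_le_rpow_of_exponent_le hR (by linarith [min_le_left ε 1])
    have h6 : (0 : ℝ) ≤ R ^ (1 / 2 + ε') := by positivity
    calc |(count (frac x) R : ℝ) - Real.pi * R ^ 2| ≤ C * R ^ (1 / 2 + ε') := h4
      _ ≤ max C 0 * R ^ (1 / 2 + ε') := mul_le_mul_of_nonneg_right (le_max_left _ _) h6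
      _ ≤ _ := mul_le_mul_of_nonneg_left h5 (le_max_right _ _)
  · have hu : ∀ᵐ θ ∂(Measure.infinitePi fun _ : ℕ => unif), ∀ n, 0 ≤ θ n ∧ θ n ≤ 1 := by
      rw [ae_all_iff]
      intro n
      have h1 : ∀ᵐ x ∂unif, x ∈ Set.Icc (0 : ℝ) 1 := ae_restrict_mem measurableSet_Icc
      have h2 : (Measure.infinitePi fun _ : ℕ => unif).map (fun θ : ℕ → ℝ => θ n) = unif :=
        Measure.infinitePi_map_eval (fun _ => unif) n
      rw [← h2] at h1
      filter_upwards [ae_of_ae_map (measurable_pi_apply n).aemeasurable h1] with θ h using h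
    have h1 : ∀ᵐ θ ∂(Measure.infinitePi fun _ : ℕ => unif), (∀ n, 1 ≤ n → 0 ≤ θ n ∧ θ n ≤ 1) → ∃ C : ℝ, ∀ R : ℝ,
      1 ≤ R → |Pool.Agent.U160.GC.F θ R - Real.pi * R ^ 2| ≤ C * (Real.sqrt R * (1 + Real.log R)) :=
      Pool.Agent.U160.GC.circle_iid
    filter_upwards [hu, h1] with θ h2 h3
    exact h3 (fun n _ => h2 n)

end Pool.Agent.Results.MP_fb29e9_nt.PerturbedIntegers
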